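import Mathlib
import Pool.Agent.Lib.MP_7ab245_nt.House.Main

/-!
Lehmer's problem and the house: a quadratic strengthening of the Schinzel-Zassenhaus bound,
and Lehmer's conjecture for polynomials of degree `n` with all roots in `|z| ≤ 1 + C / n`.
-/

set_option autoImplicit false

open Polynomial

namespace Pool.Agent.Results.MP_7ab245_nt.HouseEnergy

open Pool.Agent.Lib.MP_7ab245_nt.House

/-- product formula for the Mahler measure of a monic integer polynomial -/
lemma mahler_monic {f : ℤ[X]} (hf : f.Monic) :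
    (f.map (Int.castRingHom ℂ)).mahlerMeasure =
      ((f.map (Int.castRingHom ℂ)).roots.map fun a => max 1 ‖a‖).prod := by
  rw [mahlerMeasure_eq_leadingCoeff_mul_prod_roots, (hf.map _).leadingCoeff, norm_one, one_mul]

lemma log_prod_max (s : Multiset ℂ) :
    Real.log (s.map fun a => max 1 ‖a‖).prod = (s.map fun a => Real.posLog ‖a‖).sum ∧
      0 < (s.map fun a => max 1 ‖a‖).prod := by
  induction s using Multiset.induction_on with
  | empty => simp
  | cons a s ih =>
    have h1 : 0 < max 1 ‖a‖ := lt_of_lt_of_le one_pos (le_max_left _ _)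
    rw [Multiset.map_cons, Multiset.prod_cons, Multiset.map_cons, Multiset.sum_cons]
    refine ⟨?_, mul_pos h1 ih.2⟩
    rw [Real.log_mul h1.ne' ih.2.ne', ih.1, Real.posLog_eq_log_max_one (norm_nonneg _)]

lemma log_mahler_monic {f : ℤ[X]} (hf : f.Monic) :
    Real.log (f.map (Int.castRingHom ℂ)).mahlerMeasure =
      ((f.map (Int.castRingHom ℂ)).roots.map fun a => Real.posLog ‖a‖).sum := by
  rw [mahler_monic hf, (log_prod_max _).1]

/-- if the Mahler measure exceeds one, some root lies outside the unit disc -/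
lemma exists_root {f : ℤ[X]} (hf : f.Monic)
    (h : 1 < (f.map (Int.castRingHom ℂ)).mahlerMeasure) :
    ∃ a ∈ (f.map (Int.castRingHom ℂ)).roots, 1 < ‖a‖ := by
  by_contra hcon
  push Not at hcon
  rw [mahler_monic hf] at h
  have : ((f.map (Int.castRingHom ℂ)).roots.map fun a => max 1 ‖a‖).prod = 1 := by
    apply Multiset.prod_eq_one
    intro x hx
    rw [Multiset.mem_map] at hx
    obtain ⟨a, ha, rfl⟩ := hx
    exact max_eq_left (hcon a ha)
  linarith

theorem energy {f : ℤ[X]} (hf : f.Monic)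
    (h : 1 < (f.map (Int.castRingHom ℂ)).mahlerMeasure) :
    (1 : ℝ) / 640 ≤ f.natDegree *
      ((f.map (Int.castRingHom ℂ)).roots.map fun a => (Real.posLog ‖a‖) ^ 2).sum :=
  energy_bound f.natDegree f rfl hf (exists_root hf h)

lemma sum_le_mul (s : Multiset ℂ) (L : ℝ) (h : ∀ a ∈ s, Real.posLog ‖a‖ ≤ L) :
    (s.map fun a => (Real.posLog ‖a‖) ^ 2).sum ≤ L * (s.map fun a => Real.posLog ‖a‖).sum := by
  rw [← Multiset.sum_map_mul_left]
  apply Multiset.sum_map_le_sum_map
  intro a ha
  rw [pow_two]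
  exact mul_le_mul_of_nonneg_right (h a ha) Real.posLog_nonneg

lemma sum_le_card (s : Multiset ℂ) (L : ℝ) (h : ∀ a ∈ s, Real.posLog ‖a‖ ≤ L) :
    (s.map fun a => (Real.posLog ‖a‖) ^ 2).sum ≤
      L ^ 2 * Multiset.card (s.filter fun a => 1 < ‖a‖) := by
  induction s using Multiset.induction_on with
  | empty => simp
  | cons a s ih =>
    have ih' := ih fun b hb => h b (Multiset.mem_cons_of_mem hb)
    have ha := h a (Multiset.mem_cons_self a s)
    rw [Multiset.map_cons, Multiset.sum_cons]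
    by_cases h1 : 1 < ‖a‖
    · rw [Multiset.filter_cons_of_pos (p := fun z : ℂ => 1 < ‖z‖) s h1, Multiset.card_cons]
      push_cast
      have : (Real.posLog ‖a‖) ^ 2 ≤ L ^ 2 := by
        have := Real.posLog_nonneg (x := ‖a‖)
        gcongr
      linarith
    · rw [Multiset.filter_cons_of_neg (p := fun z : ℂ => 1 < ‖z‖) s h1]
      have h0 : Real.posLog ‖a‖ = 0 := by
        rw [Real.posLog_eq_zero_iff, abs_of_nonneg (norm_nonneg _)]
        exact not_lt.mp h1
      rw [h0]
      linarith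

/-- monic case of the second assertion -/
lemma monic_case {f : ℤ[X]} (hf : f.Monic)
    (h : 1 < (f.map (Int.castRingHom ℂ)).mahlerMeasure) (R : ℝ)
    (hR : ∀ a ∈ (f.map (Int.castRingHom ℂ)).roots, ‖a‖ ≤ R) :
    0 < f.natDegree ∧ 0 < Real.log R ∧
      1 / (640 * f.natDegree * Real.log R) ≤
        Real.log (f.map (Int.castRingHom ℂ)).mahlerMeasure ∧
      (1 : ℝ) / 640 ≤ f.natDegree * ((Real.log R) ^ 2 *
        Multiset.card ((f.map (Int.castRingHom ℂ)).roots.filter fun a => 1 < ‖a‖)) := by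
  obtain ⟨a, ha, ha1⟩ := exists_root hf h
  have hR1 : 1 < R := lt_of_lt_of_le ha1 (hR a ha)
  have hlog : 0 < Real.log R := Real.log_pos hR1
  have hE := energy hf h
  have hdeg : 0 < f.natDegree := by
    rw [← card_roots_eq hf]
    exact Multiset.card_pos_iff_exists_mem.mpr ⟨a, ha⟩
  have hdegR : (0 : ℝ) < f.natDegree := by exact_mod_cast hdeg
  have hpos : ∀ b ∈ (f.map (Int.castRingHom ℂ)).roots, Real.posLog ‖b‖ ≤ Real.log R := by
    intro b hb
    rw [Real.posLog_eq_log_max_one (norm_nonneg _)]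
    apply Real.log_le_log (lt_of_lt_of_le one_pos (le_max_left _ _))
    exact max_le hR1.le (hR b hb)
  refine ⟨hdeg, hlog, ?_, ?_⟩
  · have h1 := sum_le_mul _ _ hpos
    rw [← log_mahler_monic hf] at h1
    rw [div_le_iff₀ (by positivity)]
    have h2 : (f.natDegree : ℝ) *
        ((f.map (Int.castRingHom ℂ)).roots.map fun a => (Real.posLog ‖a‖) ^ 2).sum ≤
        f.natDegree * (Real.log R * Real.log (f.map (Int.castRingHom ℂ)).mahlerMeasure) := by
      gcongr
    linarith
  · refine hE.trans ?_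
    gcongr
    exact sum_le_card _ _ hpos

/-- nonmonic polynomials -/
lemma reduce_monic {f : ℤ[X]} (h : 1 < (f.map (Int.castRingHom ℂ)).mahlerMeasure) :
    2 ≤ (f.map (Int.castRingHom ℂ)).mahlerMeasure ∨
      ∃ g : ℤ[X], g.Monic ∧ g.natDegree = f.natDegree ∧
        (g.map (Int.castRingHom ℂ)).mahlerMeasure = (f.map (Int.castRingHom ℂ)).mahlerMeasure ∧
        (g.map (Int.castRingHom ℂ)).roots = (f.map (Int.castRingHom ℂ)).roots := by
  have hfne : f ≠ 0 := by
    rintro rfl
    simp at h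
    linarith
  by_cases hlc : |f.leadingCoeff| = 1
  · right
    rcases (abs_eq (by norm_num : (0 : ℤ) ≤ 1)).mp hlc with h1 | h1
    · exact ⟨f, h1, rfl, rfl, rfl⟩
    · refine ⟨-f, ?_, natDegree_neg f, ?_, ?_⟩
      · rw [Monic, leadingCoeff_neg, h1]; norm_num
      · have h2 : (-f : ℤ[X]) = C (-1 : ℤ) * f := by simp
        rw [h2, Polynomial.map_mul, mahlerMeasure_mul, map_C, mahlerMeasure_const]
        simp
      · rw [Polynomial.map_neg, roots_neg]
  · left
    have hlc0 : f.leadingCoeff ≠ 0 := leadingCoeff_ne_zero.mpr hfne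
    have hlc2 : 2 ≤ |f.leadingCoeff| := by
      have := abs_pos.mpr hlc0
      omega
    have h2 := leadingCoeff_le_mahlerMeasure (f.map (Int.castRingHom ℂ))
    refine le_trans ?_ h2
    rw [leadingCoeff_map_of_injective (Int.castRingHom ℂ).injective_int]
    have h3 : ‖(Int.castRingHom ℂ) f.leadingCoeff‖ = ((|f.leadingCoeff| : ℤ) : ℝ) := by
      simp
    rw [h3]
    exact_mod_cast hlc2

/-- If `f ∈ ℤ[X]` is monic of degree `n` with Mahler measure `M(f) > 1`, then
`n * ∑ (log⁺ |a|)² ≥ 1/640`, the sum over the complex roots `a` of `f` with multiplicity. -/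
theorem result :
    ∀ f : ℤ[X], f.Monic → 1 < (f.map (Int.castRingHom ℂ)).mahlerMeasure →
      (1 : ℝ) / 640 ≤ f.natDegree *
        ((f.map (Int.castRingHom ℂ)).roots.map fun a => (Real.posLog ‖a‖) ^ 2).sum :=
  fun _ hf h => energy hf h

/-- If all roots of `f` satisfy `|a| ≤ R` then `log M(f) ≥ min (log 2) (1 / (640 n log R))`. -/
theorem log_mahler_of_house :
    ∀ f : ℤ[X], 1 < (f.map (Int.castRingHom ℂ)).mahlerMeasure → ∀ R : ℝ,
      (∀ a ∈ (f.map (Int.castRingHom ℂ)).roots, ‖a‖ ≤ R) →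
        min (Real.log 2) (1 / (640 * f.natDegree * Real.log R)) ≤
          Real.log (f.map (Int.castRingHom ℂ)).mahlerMeasure := by
  intro f h R hR
  rcases reduce_monic h with h2 | ⟨g, hg, hgd, hgM, hgr⟩
  · exact (min_le_left _ _).trans (Real.log_le_log (by norm_num) h2)
  · rw [← hgM] at h
    rw [← hgr] at hR
    have h1 := (monic_case hg h R hR).2.2.1
    rw [hgd, hgM] at h1
    exact (min_le_right _ _).trans h1

/-- If all roots of `f` satisfy `|a| ≤ 1 + C / n` then `M(f) ≥ min 2 (exp (1 / (640 C)))`. -/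
theorem lehmer_of_house :
    ∀ C : ℝ, 0 < C → ∀ f : ℤ[X], 1 < (f.map (Int.castRingHom ℂ)).mahlerMeasure →
      (∀ a ∈ (f.map (Int.castRingHom ℂ)).roots, ‖a‖ ≤ 1 + C / f.natDegree) →
        min 2 (Real.exp (1 / (640 * C))) ≤ (f.map (Int.castRingHom ℂ)).mahlerMeasure := by
  intro C hC f h hR
  rcases reduce_monic h with h2 | ⟨g, hg, hgd, hgM, hgr⟩
  · exact (min_le_left _ _).trans h2
  · rw [← hgM] at h
    rw [← hgr, ← hgd] at hR
    obtain ⟨hdeg, hlog, h1, -⟩ := monic_case hg h _ hR
    have hdegR : (0 : ℝ) < g.natDegree := by exact_mod_cast hdeg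
    refine (min_le_right _ _).trans ?_
    rw [← hgM, ← Real.le_log_iff_exp_le (by linarith)]
    refine le_trans ?_ h1
    apply one_div_le_one_div_of_le (by positivity)
    have h2 : Real.log (1 + C / g.natDegree) ≤ C / g.natDegree := by
      have := Real.log_le_sub_one_of_pos (x := 1 + C / g.natDegree) (by positivity)
      linarith
    calc 640 * (g.natDegree : ℝ) * Real.log (1 + C / g.natDegree)
        ≤ 640 * (g.natDegree : ℝ) * (C / g.natDegree) := by gcongr
      _ = 640 * C := by field_simp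

/-- If `f` is monic and all roots satisfy `|a| ≤ 1 + C / n`, at least `n / (640 C²)` of them
(with multiplicity) lie outside the closed unit disc. -/
theorem card_of_house :
    ∀ C : ℝ, 0 < C → ∀ f : ℤ[X], f.Monic →
      1 < (f.map (Int.castRingHom ℂ)).mahlerMeasure →
      (∀ a ∈ (f.map (Int.castRingHom ℂ)).roots, ‖a‖ ≤ 1 + C / f.natDegree) →
        (f.natDegree : ℝ) / (640 * C ^ 2) ≤
          Multiset.card ((f.map (Int.castRingHom ℂ)).roots.filter fun a => 1 < ‖a‖) := by
  intro C hC f hf h hR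
  obtain ⟨hdeg, hlog, -, h1⟩ := monic_case hf h _ hR
  have hdegR : (0 : ℝ) < f.natDegree := by exact_mod_cast hdeg
  have h2 : Real.log (1 + C / f.natDegree) ≤ C / f.natDegree := by
    have := Real.log_le_sub_one_of_pos (x := 1 + C / f.natDegree) (by positivity)
    linarith
  set k : ℝ := (Multiset.card ((f.map (Int.castRingHom ℂ)).roots.filter fun a => 1 < ‖a‖) : ℝ)
    with hk
  have hk0 : 0 ≤ k := Nat.cast_nonneg _
  have h3 : (1 : ℝ) / 640 ≤ f.natDegree * ((C / f.natDegree) ^ 2 * k) := by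
    refine h1.trans ?_
    gcongr
  have h4 : (f.natDegree : ℝ) * ((C / f.natDegree) ^ 2 * k) = C ^ 2 * k / f.natDegree := by
    field_simp
  rw [h4, div_le_div_iff₀ (by norm_num) hdegR] at h3
  rw [div_le_iff₀ (by positivity)]
  linarith

/-- the Mahler measure of `X ^ m - a` -/
lemma mahler_X_pow_sub_C (a : ℂ) {m : ℕ} (hm : 0 < m) :
    ((X : ℂ[X]) ^ m - C a).mahlerMeasure = max 1 ‖a‖ := by
  have hmon : ((X : ℂ[X]) ^ m - C a).Monic := monic_X_pow_sub_C a hm.ne'
  have hcard : Multiset.card ((X : ℂ[X]) ^ m - C a).roots = m := by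
    rw [(IsAlgClosed.splits _).natDegree_eq_card_roots.symm, natDegree_X_pow_sub_C]
  have hroot : ∀ b ∈ ((X : ℂ[X]) ^ m - C a).roots, ‖b‖ ^ m = ‖a‖ := by
    intro b hb
    have h1 := (mem_roots'.mp hb).2
    rw [IsRoot, eval_sub, eval_pow, eval_X, eval_C, sub_eq_zero] at h1
    rw [← norm_pow, h1]
  obtain ⟨r, hr0, hr⟩ : ∃ r : ℝ, 0 ≤ r ∧ r ^ m = ‖a‖ :=
    ⟨‖a‖ ^ ((m : ℝ)⁻¹), by positivity, Real.rpow_inv_natCast_pow (norm_nonneg a) hm.ne'⟩
  have hroot' : ∀ b ∈ ((X : ℂ[X]) ^ m - C a).roots, max 1 ‖b‖ = max 1 r := by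
    intro b hb
    rw [(pow_left_inj₀ (norm_nonneg b) hr0 hm.ne').mp ((hroot b hb).trans hr.symm)]
  rw [mahlerMeasure_eq_leadingCoeff_mul_prod_roots, hmon.leadingCoeff, norm_one, one_mul,
    Multiset.map_congr rfl hroot', Multiset.map_const', Multiset.prod_replicate, hcard, ← hr]
  rcases le_total 1 r with h | h
  · rw [max_eq_right h, max_eq_right (one_le_pow₀ h)]
  · rw [max_eq_left h, one_pow, max_eq_left (pow_le_one₀ hr0 h)]

lemma mahler_multiset (s : Multiset ℂ) {m : ℕ} (hm : 0 < m) :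
    (s.map fun a => (X : ℂ[X]) ^ m - C a).prod.mahlerMeasure = (s.map fun a => max 1 ‖a‖).prod := by
  induction s using Multiset.induction_on with
  | empty => simp
  | cons a s ih =>
    rw [Multiset.map_cons, Multiset.prod_cons, mahlerMeasure_mul, ih, Multiset.map_cons,
      Multiset.prod_cons, mahler_X_pow_sub_C a hm]

/-- `M(f(X^m)) = M(f)` -/
lemma mahler_expand (f : ℂ[X]) {m : ℕ} (hm : 0 < m) :
    (expand ℂ m f).mahlerMeasure = f.mahlerMeasure := by
  have h1 : f = C f.leadingCoeff * (f.roots.map fun a => X - C a).prod :=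
    (IsAlgClosed.splits f).eq_prod_roots
  have h2 : expand ℂ m f = C f.leadingCoeff * (f.roots.map fun a => (X : ℂ[X]) ^ m - C a).prod := by
    conv_lhs => rw [h1]
    rw [map_mul, expand_C, map_multiset_prod, Multiset.map_map]
    congr 2
    apply Multiset.map_congr rfl
    intro a _
    simp
  rw [h2, mahlerMeasure_mul, mahler_multiset _ hm, mahlerMeasure_const,
    mahlerMeasure_eq_leadingCoeff_mul_prod_roots]

/-- For EVERY function `w` tending to infinity: Q1 is equivalent to Q1 for the polynomials of degree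
`n` all of whose roots satisfy `|a| ≤ 1 + w n / n`. (`lehmer_of_house` proves it for constant `w`.) -/
theorem q1_iff_house (w : ℕ → ℝ) (hw : Filter.Tendsto w Filter.atTop Filter.atTop) :
    (∃ μ : ℝ, 1 < μ ∧ ∀ f : ℤ[X], 1 < (f.map (Int.castRingHom ℂ)).mahlerMeasure →
      μ ≤ (f.map (Int.castRingHom ℂ)).mahlerMeasure) ↔
    ∃ μ : ℝ, 1 < μ ∧ ∀ f : ℤ[X], 1 < (f.map (Int.castRingHom ℂ)).mahlerMeasure →
      (∀ a ∈ (f.map (Int.castRingHom ℂ)).roots, ‖a‖ ≤ 1 + w f.natDegree / f.natDegree) →
        μ ≤ (f.map (Int.castRingHom ℂ)).mahlerMeasure := by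
  constructor
  · rintro ⟨μ, h1, h2⟩
    exact ⟨μ, h1, fun f hf _ => h2 f hf⟩
  · rintro ⟨μ, h1, h2⟩
    refine ⟨μ, h1, fun f hf => ?_⟩
    -- a bound for the roots
    obtain ⟨R, hR1, hR⟩ : ∃ R : ℝ, 1 < R ∧ ∀ a ∈ (f.map (Int.castRingHom ℂ)).roots, ‖a‖ ≤ R := by
      refine ⟨2 + ((f.map (Int.castRingHom ℂ)).roots.map fun a => ‖a‖).sum, ?_, ?_⟩
      · have : 0 ≤ ((f.map (Int.castRingHom ℂ)).roots.map fun a => ‖a‖).sum :=
          Multiset.sum_nonneg (by
            intro x hx
            obtain ⟨a, -, rfl⟩ := Multiset.mem_map.mp hx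
            exact norm_nonneg a)
        linarith
      · intro a ha
        have : ‖a‖ ≤ ((f.map (Int.castRingHom ℂ)).roots.map fun a => ‖a‖).sum :=
          Multiset.single_le_sum (by
            intro x hx
            obtain ⟨a, -, rfl⟩ := Multiset.mem_map.mp hx
            exact norm_nonneg a) _ (Multiset.mem_map_of_mem _ ha)
        linarith
    have hlogR : 0 < Real.log R := Real.log_pos hR1
    have hn : 0 < f.natDegree ∨ f.natDegree = 0 := (Nat.eq_zero_or_pos _).symm
    rcases hn with hn | hn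
    swap
    · -- constants have no roots
      have hroots : (f.map (Int.castRingHom ℂ)).roots = 0 := by
        have h3 : f = C (f.coeff 0) := eq_C_of_natDegree_eq_zero hn
        rw [h3, map_C, roots_C]
      exact h2 f hf (by rw [hroots]; intro a ha; exact absurd ha (Multiset.notMem_zero a))
    -- choice of `m`
    obtain ⟨m, hm0, hmR, hmw⟩ : ∃ m : ℕ, 0 < m ∧ Real.log R ≤ m ∧
        2 * (f.natDegree * Real.log R) ≤ w (f.natDegree * m) := by
      have h3 : Filter.Tendsto (fun m : ℕ => w (f.natDegree * m)) Filter.atTop Filter.atTop :=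
        hw.comp (Filter.tendsto_id.const_mul_atTop' hn)
      have h4 := h3.eventually_ge_atTop (2 * (f.natDegree * Real.log R))
      have h5 : ∀ᶠ m : ℕ in Filter.atTop, Real.log R ≤ m :=
        tendsto_natCast_atTop_atTop.eventually_ge_atTop _
      obtain ⟨m, hm⟩ := (h4.and (h5.and (Filter.eventually_gt_atTop 0))).exists
      exact ⟨m, hm.2.2, hm.2.1, hm.1⟩
    have hmap : (expand ℤ m f).map (Int.castRingHom ℂ) = expand ℂ m (f.map (Int.castRingHom ℂ)) :=
      map_expand
    have hM : ((expand ℤ m f).map (Int.castRingHom ℂ)).mahlerMeasure =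
        (f.map (Int.castRingHom ℂ)).mahlerMeasure := by
      rw [hmap, mahler_expand _ hm0]
    have hdeg : (expand ℤ m f).natDegree = f.natDegree * m := natDegree_expand m f
    rw [← hM]
    refine h2 _ (by rw [hM]; exact hf) ?_
    intro b hb
    rw [hmap] at hb
    have hroot : ‖b‖ ^ m ≤ R := by
      rw [← norm_pow]
      apply hR
      rw [mem_roots'] at hb ⊢
      refine ⟨fun h0 => hb.1 (by rw [h0, map_zero]), ?_⟩
      have h6 := hb.2
      rw [IsRoot, expand_eval] at h6
      exact h6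
    have hmR0 : (0 : ℝ) < m := by exact_mod_cast hm0
    have hnR0 : (0 : ℝ) < f.natDegree := by exact_mod_cast hn
    have h7 : ‖b‖ ≤ 1 + 2 * (Real.log R / m) := by
      have h8 : ‖b‖ ≤ Real.exp (Real.log R / m) := by
        apply le_of_pow_le_pow_left₀ hm0.ne' (Real.exp_pos _).le
        rw [← Real.exp_nat_mul, mul_div_cancel₀ _ hmR0.ne', Real.exp_log (by linarith)]
        exact hroot
      have h9 : Real.log R / m ≤ 1 := by
        rw [div_le_one hmR0]
        exact hmR
      have h10 : 0 ≤ Real.log R / m := by positivity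
      refine h8.trans ?_
      have h12 : Real.exp (Real.log R / m) ≤ 1 + (Real.log R / m) + (Real.log R / m) ^ 2 := by
        have := Real.abs_exp_sub_one_sub_id_le (x := Real.log R / m) (by rw [abs_of_nonneg h10]; exact h9)
        linarith [(abs_le.mp this).2]
      nlinarith
    refine h7.trans ?_
    rw [hdeg]
    push_cast
    have h13 : 2 * (Real.log R / m) ≤ w (f.natDegree * m) / (f.natDegree * m) := by
      rw [le_div_iff₀ (by positivity)]
      calc 2 * (Real.log R / m) * (f.natDegree * m) = 2 * (f.natDegree * Real.log R) := by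
            field_simp
        _ ≤ _ := hmw
    linarith

end Pool.Agent.Results.MP_7ab245_nt.HouseEnergy
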