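import Mathlib
import Pool.Agent.Lib.MP_7ab245_nt.L1.Red2
import Pool.Agent.Lib.MP_7ab245_nt.L1.MeanSq
import Pool.Agent.Lib.MP_7ab245_nt.L1.MeanIff

/-!
A lower bound for the Mahler measure of every irreducible polynomial `g` with `M(g) > 1` in terms of
the mean `l` of `log⁺ |g|` over the unit circle, `log M(g) ≥ c / (1 + l) ^ 3`, and of the length `L`,
`log M(g) ≥ c / (log (2 L)) ^ 3`.
-/

set_option autoImplicit false

open Polynomial

namespace Pool.Agent.Results.MP_7ab245_nt.MeanLog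

/-- Multiples of `g`: let `g` be irreducible with `M(g) > 1`, `M(u) = 1`, `e ≥ 1`, `f = u * g ^ e`,
`D = deg f / (e deg g)` and let `κ` be the mean over the unit circle of `|log |f(z)||`. Then
`log M(g) ≥ c / (D (1 + κ)) ^ 3` with an absolute constant `c > 0`. -/
theorem multiples : ∃ c : ℝ, 0 < c ∧ ∀ (u g : ℤ[X]) (e : ℕ), 0 < e →
    (u.map (Int.castRingHom ℂ)).mahlerMeasure = 1 → Irreducible g →
    1 < (g.map (Int.castRingHom ℂ)).mahlerMeasure → ∀ (f : ℤ[X]) (D κ : ℝ), f = u * g ^ e →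
    D = f.natDegree / (e * g.natDegree) →
    κ = Real.circleAverage
      (fun z => |Real.log ‖(f.map (Int.castRingHom ℂ)).eval z‖|) 0 1 →
    c / (D * (1 + κ)) ^ 3 ≤ Real.log (g.map (Int.castRingHom ℂ)).mahlerMeasure := by
  obtain ⟨c, hc, h⟩ := Pool.Agent.Lib.MP_7ab245_nt.L1.log_norm_main
  refine ⟨c, hc, fun u g e he hMu hirr hM f D κ hf hD hκ => ?_⟩
  rw [hκ]
  exact h u g e he hMu hirr hM f D hf hD

/-- the mean of `|log |g||` is at most twice the mean of `log⁺ |g|` -/
lemma mean_abs_le {g : ℤ[X]} (hM : 1 < (g.map (Int.castRingHom ℂ)).mahlerMeasure) :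
    Real.circleAverage (fun z => |Real.log ‖(g.map (Int.castRingHom ℂ)).eval z‖|) 0 1 ≤
      2 * Real.circleAverage
        (fun z => Real.posLog ‖(g.map (Int.castRingHom ℂ)).eval z‖) 0 1 := by
  set P := g.map (Int.castRingHom ℂ) with hP
  have hi : CircleIntegrable (fun z => Real.log ‖P.eval z‖) 0 1 := by
    apply MeromorphicOn.circleIntegrable_log_norm
    exact fun z _ => (AnalyticAt.aeval_polynomial analyticAt_id P).meromorphicAt
  have h0 : 0 ≤ Real.circleAverage (fun z => Real.log ‖P.eval z‖) 0 1 := by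
    rw [← logMahlerMeasure_def, logMahlerMeasure_eq_log_MahlerMeasure]
    exact Real.log_nonneg hM.le
  have h1 : (fun z : ℂ => Real.posLog ‖P.eval z‖) =
      fun z => (2 : ℝ)⁻¹ • (Real.log ‖P.eval z‖ + |Real.log ‖P.eval z‖|) := by
    funext z
    rw [smul_eq_mul, Real.half_mul_log_add_log_abs]
  have hi' : CircleIntegrable (fun z => |Real.log ‖P.eval z‖|) 0 1 := hi.abs
  rw [h1, Real.circleAverage_fun_smul, Real.circleAverage_fun_add hi hi', smul_eq_mul]
  linarith

lemma mean_posLog_nonneg (g : ℤ[X]) : 0 ≤ Real.circleAverage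
    (fun z => Real.posLog ‖(g.map (Int.castRingHom ℂ)).eval z‖) 0 1 :=
  Real.circleAverage_nonneg_of_nonneg fun _ _ => Real.posLog_nonneg

/-- the bound in terms of the mean `l` of `log⁺ |g|` -/
theorem mean_bound : ∃ c : ℝ, 0 < c ∧ ∀ g : ℤ[X], Irreducible g →
    1 < (g.map (Int.castRingHom ℂ)).mahlerMeasure →
    c / (1 + Real.circleAverage
      (fun z => Real.posLog ‖(g.map (Int.castRingHom ℂ)).eval z‖) 0 1) ^ 3 ≤
        Real.log (g.map (Int.castRingHom ℂ)).mahlerMeasure := by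
  obtain ⟨c, hc, h⟩ := multiples
  refine ⟨min (c / 8) (Real.log 2), lt_min (by positivity) (Real.log_pos (by norm_num)),
    fun g hg hM => ?_⟩
  have hl := mean_posLog_nonneg g
  have hκ := mean_abs_le hM
  obtain ⟨l, hl'⟩ : ∃ l : ℝ, l = Real.circleAverage
    (fun z => Real.posLog ‖(g.map (Int.castRingHom ℂ)).eval z‖) 0 1 := ⟨_, rfl⟩
  rw [← hl'] at hl hκ ⊢
  rcases Nat.eq_zero_or_pos g.natDegree with hn | hn
  · -- constants
    have h1 : g = C (g.coeff 0) := eq_C_of_natDegree_eq_zero hn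
    have h2 : (g.map (Int.castRingHom ℂ)).mahlerMeasure = |(g.coeff 0 : ℝ)| := by
      rw [h1, map_C, mahlerMeasure_const, coeff_C_zero]
      simp
    rw [h2] at hM ⊢
    have h3 : (1 : ℤ) < |g.coeff 0| := by exact_mod_cast hM
    have h4 : (2 : ℝ) ≤ |(g.coeff 0 : ℝ)| := by exact_mod_cast (by omega : (2 : ℤ) ≤ |g.coeff 0|)
    have h5 : min (c / 8) (Real.log 2) / (1 + l) ^ 3 ≤ min (c / 8) (Real.log 2) := by
      refine div_le_self (lt_min (by positivity) (Real.log_pos (by norm_num))).le ?_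
      exact one_le_pow₀ (by linarith)
    exact (h5.trans (min_le_right _ _)).trans (Real.log_le_log (by norm_num) h4)
  · have hn' : (g.natDegree : ℝ) ≠ 0 := by exact_mod_cast hn.ne'
    have h1 := h 1 g 1 one_pos (by simp) hg hM g 1 _ (by simp)
      (by rw [Nat.cast_one, one_mul, div_self hn']) rfl
    rw [one_mul] at h1
    refine le_trans ?_ h1
    obtain ⟨κ, hκ'⟩ : ∃ κ : ℝ, κ = Real.circleAverage
      (fun z => |Real.log ‖(g.map (Int.castRingHom ℂ)).eval z‖|) 0 1 := ⟨_, rfl⟩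
    have hκ0 : 0 ≤ κ := by
      rw [hκ']
      exact Real.circleAverage_nonneg_of_nonneg fun _ _ => abs_nonneg _
    rw [← hκ'] at hκ ⊢
    have h2 : (1 + κ) ^ 3 ≤ 8 * (1 + l) ^ 3 := by
      calc (1 + κ) ^ 3 ≤ (2 * (1 + l)) ^ 3 := pow_le_pow_left₀ (by linarith) (by linarith) 3
        _ = 8 * (1 + l) ^ 3 := by ring
    calc min (c / 8) (Real.log 2) / (1 + l) ^ 3 ≤ (c / 8) / (1 + l) ^ 3 :=
          div_le_div_of_nonneg_right (min_le_left _ _) (by positivity)
      _ = c / (8 * (1 + l) ^ 3) := by rw [div_div]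
      _ ≤ c / (1 + κ) ^ 3 := div_le_div_of_nonneg_left hc.le (by positivity) h2

lemma one_le_length {g : ℤ[X]} (hg0 : g ≠ 0) : 1 ≤ ∑ m ∈ g.support, |(g.coeff m : ℝ)| := by
  obtain ⟨m, hm⟩ : ∃ m, m ∈ g.support := nonempty_support_iff.2 hg0
  have h1 : (1 : ℝ) ≤ |(g.coeff m : ℝ)| := by
    have : (1 : ℤ) ≤ |g.coeff m| := Int.one_le_abs (mem_support_iff.1 hm)
    exact_mod_cast this
  exact h1.trans (Finset.single_le_sum (f := fun m => |(g.coeff m : ℝ)|)
    (fun k _ => abs_nonneg _) hm)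

/-- In terms of the length `L`, the sum of the absolute values of the coefficients. -/
theorem length_bound : ∃ c : ℝ, 0 < c ∧ ∀ g : ℤ[X], Irreducible g →
    1 < (g.map (Int.castRingHom ℂ)).mahlerMeasure →
    c / (Real.log (2 * ∑ m ∈ g.support, |(g.coeff m : ℝ)|)) ^ 3 ≤
        Real.log (g.map (Int.castRingHom ℂ)).mahlerMeasure := by
  obtain ⟨c, hc, h⟩ := mean_bound
  refine ⟨c * (Real.log 2) ^ 3, mul_pos hc (pow_pos (Real.log_pos (by norm_num)) 3),
    fun g hg hM => ?_⟩
  refine le_trans ?_ (h g hg hM)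
  have hl0 := mean_posLog_nonneg g
  obtain ⟨L, hL⟩ : ∃ L : ℝ, L = ∑ m ∈ g.support, |(g.coeff m : ℝ)| := ⟨_, rfl⟩
  rw [← hL]
  have hL1 : 1 ≤ L := by
    rw [hL]
    exact one_le_length hg.ne_zero
  have hle : Real.circleAverage
      (fun z => Real.posLog ‖(g.map (Int.castRingHom ℂ)).eval z‖) 0 1 ≤ Real.log L := by
    have hi : CircleIntegrable
        (fun z => Real.log ‖(g.map (Int.castRingHom ℂ)).eval z‖) 0 1 := by
      apply MeromorphicOn.circleIntegrable_log_norm
      exact fun z _ =>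
        (AnalyticAt.aeval_polynomial analyticAt_id (g.map (Int.castRingHom ℂ))).meromorphicAt
    have hi2 : CircleIntegrable
        (fun z => Real.posLog ‖(g.map (Int.castRingHom ℂ)).eval z‖) 0 1 := by
      have h1 : (fun z : ℂ => Real.posLog ‖(g.map (Int.castRingHom ℂ)).eval z‖) =
          fun z => (2 : ℝ)⁻¹ • (Real.log ‖(g.map (Int.castRingHom ℂ)).eval z‖ +
            |Real.log ‖(g.map (Int.castRingHom ℂ)).eval z‖|) := by
        funext z
        rw [smul_eq_mul, Real.half_mul_log_add_log_abs]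
      rw [h1]
      exact (hi.add hi.abs).const_smul
    refine (Real.circleAverage_mono hi2 (circleIntegrable_const (Real.log L) _ _) ?_).trans
      (le_of_eq (Real.circleAverage_const _ _ _))
    intro z hz
    rw [mem_sphere_iff_norm, sub_zero, abs_one] at hz
    have h2 : ‖(g.map (Int.castRingHom ℂ)).eval z‖ ≤ L := by
      rw [eval_map, eval₂_eq_sum, Polynomial.sum, hL]
      refine (norm_sum_le _ _).trans (Finset.sum_le_sum fun m _ => ?_)
      rw [norm_mul, norm_pow, hz, one_pow, mul_one]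
      simp
    rw [Real.posLog_eq_log_max_one (norm_nonneg _)]
    exact Real.log_le_log (lt_of_lt_of_le one_pos (le_max_left _ _)) (max_le hL1 h2)
  obtain ⟨l, hl⟩ : ∃ l : ℝ, l = Real.circleAverage
    (fun z => Real.posLog ‖(g.map (Int.castRingHom ℂ)).eval z‖) 0 1 := ⟨_, rfl⟩
  rw [← hl] at hle hl0 ⊢
  have hlog2 : 0 < Real.log 2 := Real.log_pos (by norm_num)
  have hlogL : 0 ≤ Real.log L := Real.log_nonneg hL1
  have hlog21 : Real.log 2 ≤ 1 := by
    have := Real.log_two_lt_d9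
    linarith
  have e1 : Real.log (2 * L) = Real.log 2 + Real.log L :=
    Real.log_mul (by norm_num) (by linarith)
  have e2 : Real.log 2 * (1 + l) ≤ Real.log (2 * L) := by
    rw [e1]
    nlinarith
  calc c * Real.log 2 ^ 3 / Real.log (2 * L) ^ 3
      ≤ c * Real.log 2 ^ 3 / (Real.log 2 * (1 + l)) ^ 3 := by
        refine div_le_div_of_nonneg_left (by positivity) (by positivity) ?_
        exact pow_le_pow_left₀ (by positivity) e2 3
    _ = c / (1 + l) ^ 3 := by
        rw [mul_pow]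
        field_simp

/-- There is an absolute constant `c > 0` such that every irreducible `g ∈ ℤ[X]` with Mahler measure
`M(g) > 1` satisfies `log M(g) ≥ c / (1 + l) ^ 3`, where `l` is the mean of `log⁺ |g(z)|` over
`|z| = 1`, and so `log M(g) ≥ c / (log (2 L)) ^ 3`, where `L` is the sum of the absolute values of the
coefficients of `g`, whatever the degree. -/
theorem result : ∃ c : ℝ, 0 < c ∧ ∀ g : ℤ[X], Irreducible g →
    1 < (g.map (Int.castRingHom ℂ)).mahlerMeasure →
    c / (1 + Real.circleAverage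
      (fun z => Real.posLog ‖(g.map (Int.castRingHom ℂ)).eval z‖) 0 1) ^ 3 ≤
        Real.log (g.map (Int.castRingHom ℂ)).mahlerMeasure ∧
    c / (Real.log (2 * ∑ m ∈ g.support, |(g.coeff m : ℝ)|)) ^ 3 ≤
        Real.log (g.map (Int.castRingHom ℂ)).mahlerMeasure := by
  obtain ⟨c₁, hc₁, h₁⟩ := mean_bound
  obtain ⟨c₂, hc₂, h₂⟩ := length_bound
  refine ⟨min c₁ c₂, lt_min hc₁ hc₂, fun g hg hM => ⟨?_, ?_⟩⟩
  · refine le_trans ?_ (h₁ g hg hM)
    have hl := mean_posLog_nonneg g
    exact div_le_div_of_nonneg_right (min_le_left _ _) (by positivity)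
  · refine le_trans ?_ (h₂ g hg hM)
    refine div_le_div_of_nonneg_right (min_le_right _ _) (pow_nonneg (Real.log_nonneg ?_) 3)
    have := one_le_length hg.ne_zero
    linarith

/-- For EVERY function `w` tending to infinity: Q1 is equivalent to Q1 for the irreducible polynomials
of degree `n` and length at most `w n`. (`result` proves it for constant `w`.) -/
theorem q1_iff_length (w : ℕ → ℝ) (hw : Filter.Tendsto w Filter.atTop Filter.atTop) :
    (∃ μ : ℝ, 1 < μ ∧ ∀ f : ℤ[X], 1 < (f.map (Int.castRingHom ℂ)).mahlerMeasure →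
      μ ≤ (f.map (Int.castRingHom ℂ)).mahlerMeasure) ↔
    ∃ μ : ℝ, 1 < μ ∧ ∀ f : ℤ[X], Irreducible f → 1 < (f.map (Int.castRingHom ℂ)).mahlerMeasure →
      ∑ i ∈ f.support, |(f.coeff i : ℝ)| ≤ w f.natDegree →
        μ ≤ (f.map (Int.castRingHom ℂ)).mahlerMeasure :=
  Pool.Agent.Lib.MP_7ab245_nt.L1.q1_iff_len w hw

end Pool.Agent.Results.MP_7ab245_nt.MeanLog
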