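import Pool.Agent.Lib.MP_7ab245_nt.Solv.FM.Final2
import Pool.Agent.Lib.MP_7ab245_nt.Solv.FM.Values

/-! Lehmer's problem and Galois groups: solvable Galois groups and Galois groups with small composition
factors; the logarithm of the Mahler measure is at least a power of the degree, unless the Galois group
is nearly symmetric. -/

set_option autoImplicit false

open Polynomial

namespace Pool.Agent.Results.MP_7ab245_nt.NearlySymmetric

/-- the Mahler measure of an integer polynomial -/
noncomputable def M (f : ℤ[X]) : ℝ := (f.map (Int.castRingHom ℂ)).mahlerMeasure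

/-- `f` as a polynomial over `ℚ` -/
noncomputable def rat (f : ℤ[X]) : ℚ[X] := f.map (Int.castRingHom ℚ)

/-- the Galois group of `f` over `ℚ` -/
abbrev GaloisGroup (f : ℤ[X]) : Type := (rat f).SplittingField ≃ₐ[ℚ] (rat f).SplittingField

/-- leading and lowest nonzero coefficient are `± 1` -/
def UnitEnds (f : ℤ[X]) : Prop := |f.leadingCoeff| = 1 ∧ |f.trailingCoeff| = 1

/-- no quotient of two different complex roots is a root of unity -/
def NoTorsion (f : ℤ[X]) : Prop :=
  ∀ x y : ℂ, aeval x f = 0 → aeval y f = 0 → ∀ k : ℕ, 0 < k → x ^ k = y ^ k → x = y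

/-- every nonabelian composition factor `Q` of `G` satisfies `|Aut Q| ≤ [Q : P] ^ κ` for all
proper subgroups `P` of `Q` -/
def SmallFactors (κ : ℕ) (G : Type*) [Group G] : Prop :=
  ∀ A : Subgroup G, A.IsSubnormal → ∀ (B : Subgroup A) [B.Normal], IsSimpleGroup (A ⧸ B) →
    (∃ a b : A ⧸ B, a * b ≠ b * a) → ∀ P : Subgroup (A ⧸ B), P ≠ ⊤ →
    Nat.card (MulAut (A ⧸ B)) ≤ P.index ^ κ

/-- the automorphisms which map `x` to `x` or to `1 / x`, up to a root of unity -/
def lineStab {E : Type} [Field E] [Algebra ℚ E] (x : E) : Subgroup (E ≃ₐ[ℚ] E) where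
  carrier := {s | ∃ k : ℕ, 0 < k ∧ ((s x) ^ k = x ^ k ∨ (s x) ^ k * x ^ k = 1)}
  one_mem' := ⟨1, one_pos, Or.inl rfl⟩
  mul_mem' := by
    rintro s t ⟨l, hl, hs⟩ ⟨k, hk, ht⟩
    refine ⟨k * l, Nat.mul_pos hk hl, ?_⟩
    have e1 : (s * t) x = s (t x) := rfl
    rw [e1]
    have hs' : (s x) ^ (k * l) = x ^ (k * l) ∨ (s x) ^ (k * l) * x ^ (k * l) = 1 := by
      rcases hs with h | h
      · left
        rw [mul_comm k l, pow_mul, h, ← pow_mul]
      · right
        rw [mul_comm k l, pow_mul, pow_mul, ← mul_pow, h, one_pow]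
    have ht' : (s (t x)) ^ (k * l) = (s x) ^ (k * l) ∨
        (s (t x)) ^ (k * l) * (s x) ^ (k * l) = 1 := by
      rcases ht with h | h
      · left
        have h2 := congrArg s h
        rw [map_pow, map_pow] at h2
        rw [pow_mul, h2, ← pow_mul]
      · right
        have h2 := congrArg s h
        rw [map_mul, map_pow, map_pow, map_one] at h2
        rw [pow_mul, pow_mul, ← mul_pow, h2, one_pow]
    rcases ht' with h1 | h1
    · rw [h1]
      exact hs'
    · rcases hs' with h2 | h2
      · right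
        rw [← h2]
        exact h1
      · left
        have h3 : (s x) ^ (k * l) ≠ 0 := left_ne_zero_of_mul_eq_one h2
        apply mul_right_cancel₀ h3
        rw [h1, mul_comm, h2]
  inv_mem' := by
    rintro s ⟨k, hk, h⟩
    refine ⟨k, hk, ?_⟩
    have e1 : s ((s⁻¹) x) = x := AlgEquiv.apply_symm_apply s x
    rcases h with h | h
    · left
      apply s.injective
      rw [map_pow, e1, map_pow, h]
    · right
      apply s.injective
      rw [map_mul, map_pow, e1, map_pow, map_one, mul_comm]
      exact h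

/-- the group of the permutations of the cosets of `H` induced by the elements of `S` -/
def cosetPerms {S : Type*} [Group S] (H : Subgroup S) : Subgroup (Equiv.Perm (S ⧸ H)) :=
  (MulAction.toPermHom S (S ⧸ H)).range

/-- all even permutations of the cosets of `H` are induced by elements of `S` -/
def AltOn {S : Type*} [Group S] [Finite S] (H : Subgroup S) : Prop :=
  @alternatingGroup (S ⧸ H) (Fintype.ofFinite _) (Classical.decEq _) ≤ cosetPerms H

/-- a subnormal subgroup of `G` maps onto the alternating group of degree `a` (so that this is a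
composition factor of `G`, as `a ≥ 5` below) -/
def AltFactor (a : ℕ) (G : Type*) [Group G] : Prop :=
  ∃ A : Subgroup G, A.IsSubnormal ∧ ∃ φ : A →* alternatingGroup (Fin a), Function.Surjective φ

/-- all elements of `Γ` different from `1` have more than `N` conjugates -/
def LargeClasses (Γ : Type*) [Group Γ] (N : ℕ) : Prop :=
  ∀ γ : Γ, γ ≠ 1 → N < (Subgroup.centralizer {γ}).index

/-- Among the subgroups of `G` properly containing `T` there is a smallest one, `S`, and for
`a = [S : T]` we have `κ < a`, `5 ≤ a`, `[G : S] ^ κ ≤ a`, and either all even permutations of `S / T`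
are induced by elements of `S` and the alternating group of degree `a` is a composition factor of `G`,
or in the group of permutations of `S / T` induced by `S` all elements `≠ 1` have more than `a ^ κ`
conjugates. -/
def NearlySymAt (κ : ℕ) {G : Type} [Group G] [Finite G] (T : Subgroup G) : Prop :=
  ∃ S : Subgroup G, T < S ∧ (∀ U : Subgroup G, T < U → S ≤ U) ∧ κ < (T.subgroupOf S).index ∧
    5 ≤ (T.subgroupOf S).index ∧ S.index ^ κ ≤ (T.subgroupOf S).index ∧
    ((AltOn (T.subgroupOf S) ∧ AltFactor (T.subgroupOf S).index G) ∨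
      LargeClasses (cosetPerms (T.subgroupOf S)) ((T.subgroupOf S).index ^ κ))

/-- `g` is nearly symmetric: its Galois group `G` is not solvable and has a large composition factor,
and for each root `x` the group `T = lineStab x` has index `deg g` or `(deg g) / 2` in `G` and `G` is
nearly symmetric with respect to `T`. -/
structure NearlySym (κ : ℕ) (g : ℤ[X]) : Prop where
  notSolvable : ¬ Group.IsSolvable (GaloisGroup g)
  largeFactor : ¬ SmallFactors κ (GaloisGroup g)
  index : ∀ x : (rat g).SplittingField, aeval x g = 0 →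
    g.natDegree = (lineStab x).index ∨ g.natDegree = 2 * (lineStab x).index
  symmetric : ∀ x : (rat g).SplittingField, aeval x g = 0 → NearlySymAt κ (lineStab x)

/-- For every `κ` there are `L ≥ 1`, `C > 0` and `c > 0` such that
(1) `M f ≥ 1 + c` for all `f` with `M f > 1` whose Galois group is solvable or `SmallFactors κ`;
(2) for every `B` these `f` with leading and lowest coefficient `± 1` have only finitely many Mahler
measures `≤ B`;
(3) if `g` is irreducible, with leading and constant coefficient `± 1`, without torsion quotients of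
roots, `M g > 1`, then `deg g ≤ C (log M g) ^ L` or `g` is nearly symmetric;
(4) if `f` has leading and lowest coefficient `± 1` and `M f > 1`, then `M f` is the Mahler measure of a
polynomial of degree at most `C (log M f) ^ L`, or the Galois group of `f` is not `SmallFactors κ` and
a nearly symmetric `g` as in (3) with `1 < M g ≤ M f`, `deg g > C (log M g) ^ L` splits in the splitting
field of `f`. -/
theorem result (κ : ℕ) : ∃ (L : ℕ) (C c : ℝ), 1 ≤ L ∧ 0 < C ∧ 0 < c ∧
    (∀ f : ℤ[X], 1 < M f →
      Group.IsSolvable (GaloisGroup f) ∨ SmallFactors κ (GaloisGroup f) → 1 + c ≤ M f) ∧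
    (∀ B : ℝ, {m : ℝ | ∃ f : ℤ[X], UnitEnds f ∧
      (Group.IsSolvable (GaloisGroup f) ∨ SmallFactors κ (GaloisGroup f)) ∧
      M f = m ∧ m ≤ B}.Finite) ∧
    (∀ g : ℤ[X], Irreducible g → UnitEnds g → NoTorsion g → 1 < M g →
      (g.natDegree : ℝ) ≤ C * Real.log (M g) ^ L ∨ NearlySym κ g) ∧
    ∀ f : ℤ[X], UnitEnds f → 1 < M f →
      (∃ F : ℤ[X], M F = M f ∧ (F.natDegree : ℝ) ≤ C * Real.log (M f) ^ L) ∨
      (¬ SmallFactors κ (GaloisGroup f) ∧
      ∃ g : ℤ[X], Irreducible g ∧ UnitEnds g ∧ NoTorsion g ∧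
        (g.map (Int.castRingHom (rat f).SplittingField)).Splits ∧ 1 < M g ∧ M g ≤ M f ∧
        C * Real.log (M g) ^ L < g.natDegree ∧ NearlySym κ g) := by
  obtain ⟨L, C, c, hL, hC, hc, h1, h2, h3⟩ := Pool.Agent.Lib.MP_7ab245_nt.Solv.FM.final2 κ
  have hsf : ∀ f : ℤ[X], Group.IsSolvable (GaloisGroup f) ∨ SmallFactors κ (GaloisGroup f) →
      SmallFactors κ (GaloisGroup f) := by
    rintro f (h | h)
    · exact Pool.Agent.Lib.MP_7ab245_nt.Solv.FM.smallFactors_of_isSolvable κ h
    · exact h
  have htc : ∀ f : ℤ[X], Irreducible f → 1 < M f → f.trailingCoeff = f.coeff 0 := by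
    intro f hi hf
    have hc0 : f.coeff 0 ≠ 0 := Pool.Agent.Lib.MP_7ab245_nt.Solv.RR.coeff_ne_zero_of hi hf
    rw [trailingCoeff, natTrailingDegree_eq_zero.2 (Or.inr hc0)]
  have hnear : ∀ g : ℤ[X], Pool.Agent.Lib.MP_7ab245_nt.Solv.FM.Near κ g → NearlySym κ g :=
    fun g hg => ⟨fun hs => hg.1
      (Pool.Agent.Lib.MP_7ab245_nt.Solv.FM.smallFactors_of_isSolvable κ hs), hg.1,
      fun x hx => (hg.2 x hx).1, fun x hx => (hg.2 x hx).2⟩
  refine ⟨L, C, c, hL, hC, hc, fun f hf hG => h1 f hf (hsf f hG), ?_, ?_, ?_⟩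
  · intro B
    refine (Pool.Agent.Lib.MP_7ab245_nt.Solv.FM.finite_values L C B
      (fun f => UnitEnds f ∧ SmallFactors κ (GaloisGroup f)) ?_).subset ?_
    · rintro f ⟨hu, hG⟩ hf
      rcases h3 f hu.1 hu.2 hf with h | ⟨h, -⟩
      · exact h
      · exact absurd hG h
    · rintro m ⟨f, hu, hG, hm, hB⟩
      refine ⟨f, ⟨hu, hsf f hG⟩, ?_, hm, hB⟩
      rintro rfl
      have := hu.1
      simp at this
  · intro g hi hu hnt hg
    by_cases hlt : C * Real.log (M g) ^ L < g.natDegree
    · exact Or.inr (hnear g (h2 g hi hu.1 (by rw [← htc g hi hg]; exact hu.2) hnt hg hlt))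
    · exact Or.inl (not_lt.1 hlt)
  · intro f hu hf
    rcases h3 f hu.1 hu.2 hf with h | ⟨hG, g, hi, hnt, hs, hg1, hg2, hg3, hl, hc0, hn⟩
    · exact Or.inl h
    · refine Or.inr ⟨hG, g, hi, ⟨hl, ?_⟩, hnt, hs, hg1, hg2, hg3, hnear g hn⟩
      rw [htc g hi hg1]
      exact hc0

end Pool.Agent.Results.MP_7ab245_nt.NearlySymmetric
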