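import Mathlib
import Pool.Agent.Lib.MP_7ab245_nt.NV.Main2

/-!
# Lehmer's bound for polynomials with `k` terms in any number of variables

There is an absolute constant `c > 0` such that every integer polynomial `F` in `n` variables
(`n` arbitrary) with `k` nonzero coefficients and Mahler measure greater than one, reducible or
not, satisfies `log M(F) ≥ c / (k m (log (k + 1))^5)`, `m = min (k, (1 + l) log (k + 1))`, where
`l` is the mean of `log⁺ |F|` over the torus, and `log M(F) ≥ c / ((1 + V) (log (2 + V))^5)`, where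
`V` is the mean of `(log |F|)²` over the torus.
-/

set_option autoImplicit false

open Polynomial

namespace Pool.Agent.Results.MP_7ab245_nt.SparsePolynomials

open Pool.Agent.Lib.MP_7ab245_nt MeasureTheory

/-- The mean of `φ (F (e(θ₁), ..., e(θₙ)))`, `e(t) = exp (2 π i t)`, over `θ ∈ (0, 1]ⁿ`, that is the
mean of `φ (F)` over the torus `|x₁| = ... = |xₙ| = 1`. -/
noncomputable def torusMean {n : ℕ} (φ : ℂ → ℝ) (F : MvPolynomial (Fin n) ℤ) : ℝ :=
  ∫ θ in Set.univ.pi fun _ : Fin n => Set.Ioc (0 : ℝ) 1,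
    φ (MvPolynomial.aeval (fun j => Complex.exp (2 * Real.pi * θ j * Complex.I)) F)

/-- The logarithm of the Mahler measure of a polynomial in several variables: the mean of
`log |F|` over the torus. -/
noncomputable def logMahler {n : ℕ} (F : MvPolynomial (Fin n) ℤ) : ℝ :=
  torusMean (fun z => Real.log ‖z‖) F

/-- The mean of `log⁺ |F|` over the torus. -/
noncomputable def meanPosLog {n : ℕ} (F : MvPolynomial (Fin n) ℤ) : ℝ :=
  torusMean (fun z => max 0 (Real.log ‖z‖)) F

/-- The mean of `(log |F|)²` over the torus. -/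
noncomputable def meanSqLog {n : ℕ} (F : MvPolynomial (Fin n) ℤ) : ℝ :=
  torusMean (fun z => Real.log ‖z‖ ^ 2) F

/-- Any number of variables (first part) and one variable with Mathlib's Mahler measure (second
part). -/
theorem result : ∃ c : ℝ, 0 < c ∧
    (∀ (n : ℕ) (F : MvPolynomial (Fin n) ℤ), 0 < logMahler F →
      c / (F.support.card * min (F.support.card : ℝ)
        (Real.log (F.support.card + 1) * (1 + meanPosLog F)) *
          Real.log (F.support.card + 1) ^ 5) ≤ logMahler F ∧
      c / ((1 + meanSqLog F) * Real.log (2 + meanSqLog F) ^ 5) ≤ logMahler F) ∧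
    ∀ f : ℤ[X], 1 < (f.map (Int.castRingHom ℂ)).mahlerMeasure →
      c / (f.support.card * min (f.support.card : ℝ)
        (Real.log (f.support.card + 1) *
          (1 + Real.circleAverage (fun z : ℂ => max 0 (Real.log ‖aeval z f‖)) 0 1)) *
          Real.log (f.support.card + 1) ^ 5) ≤
        Real.log (f.map (Int.castRingHom ℂ)).mahlerMeasure ∧
      c / ((1 + Real.circleAverage (fun z : ℂ => Real.log ‖aeval z f‖ ^ 2) 0 1) *
        Real.log (2 + Real.circleAverage (fun z : ℂ => Real.log ‖aeval z f‖ ^ 2) 0 1) ^ 5) ≤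
        Real.log (f.map (Int.castRingHom ℂ)).mahlerMeasure := by
  obtain ⟨c, hc, h1, h2⟩ := NV.several_ell
  obtain ⟨h3, h4⟩ := NV.several_sq
  have hdiv : ∀ a b x y : ℝ, a ≤ b → 0 ≤ x → b / x ≤ y → a / x ≤ y := fun a b x y hab hx h =>
    (div_le_div_of_nonneg_right hab hx).trans h
  have hcard : ∀ k : ℕ, 0 ≤ Real.log ((k : ℝ) + 1) := fun k =>
    Real.log_nonneg (by have : (0 : ℝ) ≤ k := Nat.cast_nonneg k; linarith)
  refine ⟨min c LogVar.c0, lt_min hc LogVar.c0_pos, fun n F hF => ⟨?_, ?_⟩, fun f hf => ⟨?_, ?_⟩⟩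
  · refine hdiv _ _ _ _ (min_le_left _ _) ?_ (h2 n F hF)
    have h5 : 0 ≤ meanPosLog F := NV.ell_nonneg F
    have h6 := hcard F.support.card
    have h7 : 0 ≤ min (F.support.card : ℝ)
        (Real.log (F.support.card + 1) * (1 + meanPosLog F)) :=
      le_min (Nat.cast_nonneg _) (by positivity)
    positivity
  · refine hdiv _ _ _ _ (min_le_right _ _) ?_ (h4 n F hF)
    have h5 : 0 ≤ meanSqLog F := NV.sqM_nonneg F
    have h6 : 0 ≤ Real.log (2 + meanSqLog F) := Real.log_nonneg (by linarith)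
    positivity
  · have he : NV.ell1 f = Real.circleAverage (fun z : ℂ => max 0 (Real.log ‖aeval z f‖)) 0 1 := by
      unfold NV.ell1
      congr 1
      funext z
      rw [eval_map]
      rfl
    rw [← he]
    refine hdiv _ _ _ _ (min_le_left _ _) ?_ (h1 f hf)
    have h5 : 0 ≤ NV.ell1 f := NV.ell1_nonneg f
    have h6 := hcard f.support.card
    have h7 : 0 ≤ min (f.support.card : ℝ)
        (Real.log (f.support.card + 1) * (1 + NV.ell1 f)) :=
      le_min (Nat.cast_nonneg _) (by positivity)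
    positivity
  · have hD : LogVar.DD f 1 = Real.circleAverage (fun z : ℂ => Real.log ‖aeval z f‖ ^ 2) 0 1 := by
      unfold LogVar.DD
      congr 1
      funext z
      rw [Polynomial.map_one, eval_one, norm_one, Real.log_one, sub_zero, eval_map]
      rfl
    rw [← hD]
    refine hdiv _ _ _ _ (min_le_right _ _) ?_ (h3 f hf)
    have h5 : 0 ≤ LogVar.DD f 1 := LogVar.DD_nonneg f 1
    have h6 : 0 ≤ Real.log (2 + LogVar.DD f 1) := Real.log_nonneg (by linarith)
    positivity

/-- `log |F|` and `(log |F|)²` are integrable over the torus for `F ≠ 0`. -/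
theorem integrable {n : ℕ} (F : MvPolynomial (Fin n) ℤ) (hF : F ≠ 0) :
    IntegrableOn (fun θ : Fin n → ℝ => Real.log ‖MvPolynomial.aeval
      (fun j => Complex.exp (2 * Real.pi * θ j * Complex.I)) F‖)
        (Set.univ.pi fun _ => Set.Ioc (0 : ℝ) 1) ∧
    IntegrableOn (fun θ : Fin n → ℝ => Real.log ‖MvPolynomial.aeval
      (fun j => Complex.exp (2 * Real.pi * θ j * Complex.I)) F‖ ^ 2)
        (Set.univ.pi fun _ => Set.Ioc (0 : ℝ) 1) :=
  ⟨(NV.boyd_lawton F hF).1, (NV.sq_tendsto F hF).1⟩

/-- The Mahler measure in several variables is the limit of the Mahler measures of the polynomials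
`F (X, X ^ a, X ^ (a ^ 2), ...)` as `a → ∞`. -/
theorem limit {n : ℕ} (F : MvPolynomial (Fin n) ℤ) (hF : F ≠ 0) :
    Filter.Tendsto (fun a : ℕ => Real.log ((MvPolynomial.aeval
      (fun i : Fin n => (X : ℤ[X]) ^ (a ^ (i : ℕ))) F).map (Int.castRingHom ℂ)).mahlerMeasure)
      Filter.atTop (nhds (logMahler F)) :=
  (NV.boyd_lawton F hF).2

/-- For pairs: with `D` the mean square of `log |f| - log |g|` on the unit circle, either
`f P = g Q` with integer polynomials `P`, `Q` of Mahler measure one, or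
`log M(f) + log M(g) ≥ c / ((1 + D) (log (2 + D))^5)`. -/
theorem pairs : ∃ c : ℝ, 0 < c ∧ ∀ f g : ℤ[X], f ≠ 0 → g ≠ 0 →
    (∃ P Q : ℤ[X], (P.map (Int.castRingHom ℂ)).mahlerMeasure = 1 ∧
      (Q.map (Int.castRingHom ℂ)).mahlerMeasure = 1 ∧ f * P = g * Q) ∨
    c / ((1 + Real.circleAverage (fun z => (Real.log ‖(f.map (Int.castRingHom ℂ)).eval z‖ -
          Real.log ‖(g.map (Int.castRingHom ℂ)).eval z‖) ^ 2) 0 1) *
        Real.log (2 + Real.circleAverage (fun z => (Real.log ‖(f.map (Int.castRingHom ℂ)).eval z‖ -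
          Real.log ‖(g.map (Int.castRingHom ℂ)).eval z‖) ^ 2) 0 1) ^ 5) ≤
      Real.log (f.map (Int.castRingHom ℂ)).mahlerMeasure +
        Real.log (g.map (Int.castRingHom ℂ)).mahlerMeasure :=
  ⟨LogVar.c0, LogVar.c0_pos, fun f g hf hg => LogVar.rigidity f g hf hg⟩

end Pool.Agent.Results.MP_7ab245_nt.SparsePolynomials
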